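import Pool.Agent.MWA.StmtsP
import Pool.Agent.MWL.Stmts

/-!
# Squad MWA, row ABP: the base absorptions at given blocks, arbitrary period
-/

set_option autoImplicit false

namespace Pool.Agent.MWA.H6

open Pool.Agent.Helper14_MV Pool.Agent.Helper2_MV Pool.Agent.MVO Pool.Agent.MWL Pool.Agent.MWS
  Pool.Agent.MWA

/-- transport of an absorption along a map of the blocks, and to a larger vector -/
theorem transN (htrn : MWL.TrnStmt) (n : ℕ) (θ : FIC) (k0 k : ℕ) (f a0 a : ℕ → ℕ) (x : ℕ)
    (hf : BMap k0 k f) (hx : x ≤ k0) (h : AbN n θ k0 a0 x)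
    (hle : ∀ t ≤ k, psh k0 f a0 t ≤ a t) : AbN n θ k a (f x) := by
  have h4 : Ab n (FC.ofFIC θ) k (psh k0 f a0) (f x) :=
    (htrn n (FC.ofFIC θ) k0 a0 x).2.2.2 k f hf hx h
  have h2 := (htrn n (FC.ofFIC θ) k (psh k0 f a0) (f x)).2.1 (fun t => a t - psh k0 f a0 t) h4
  have h3 := (htrn n (FC.ofFIC θ) k (fun j => psh k0 f a0 j + (a j - psh k0 f a0 j)) (f x)).2.2.1 a
    (fun j hj => Nat.add_sub_cancel' (hle j hj))
  exact h3.1 h2

theorem psh_twoN (p q r i t : ℕ) : psh 1 (fun t => if t = 0 then r else i) (v2 p q) t =
    (if t = r then p else 0) + (if t = i then q else 0) := by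
  simp [psh, v2, Finset.sum_range_succ, eq_comm]

theorem psh_threeN (p q s r r' i t : ℕ) :
    psh 2 (fun t => if t = 0 then r else if t = 1 then r' else i) (v3 p q s) t =
    (if t = r then p else 0) + (if t = r' then q else 0) + (if t = i then s else 0) := by
  simp [psh, v3, Finset.sum_range_succ, eq_comm]

theorem abp (htrn : MWL.TrnStmt) : AbpStmt := by
  intro n θ
  constructor
  · intro p q k r i x a hx h hri hik hle
    have hf : BMap 1 k (fun t => if t = 0 then r else i) := by
      constructor
      · intro u v huv hv
        show (if u = 0 then r else i) ≤ (if v = 0 then r else i)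
        split_ifs <;> omega
      · intro u hu
        show (if u = 0 then r else i) ≤ k
        split_ifs <;> omega
    exact transN htrn n θ 1 k _ (v2 p q) a x hf hx h (fun t ht => by rw [psh_twoN]; exact hle t ht)
  · intro p q s k r r' i x a hx h hrr hri hik hle
    have hf : BMap 2 k (fun t => if t = 0 then r else if t = 1 then r' else i) := by
      constructor
      · intro u v huv hv
        show (if u = 0 then r else if u = 1 then r' else i) ≤
          (if v = 0 then r else if v = 1 then r' else i)
        split_ifs <;> omega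
      · intro u hu
        show (if u = 0 then r else if u = 1 then r' else i) ≤ k
        split_ifs <;> omega
    exact transN htrn n θ 2 k _ (v3 p q s) a x hf hx h
      (fun t ht => by rw [psh_threeN]; exact hle t ht)

end Pool.Agent.MWA.H6
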